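import Mathlib
import Pool.Agent.N746.Self.Core

/-!
# Signed abc triples and maps of Lattes type
-/

set_option autoImplicit false

namespace Pool.Agent.H47SS

open Pool.Agent.N746.Self (R R_pos R_le R_mul_le R_le_of_primes)

/-- a signed abc triple -/
structure OK (A B C : ℤ) : Prop where
  sum : A + B + C = 0
  cop : IsCoprime A B
  hA : A ≠ 0
  hB : B ≠ 0
  hC : C ≠ 0

/-- the height -/
def ht (A B C : ℤ) : ℕ := max A.natAbs (max B.natAbs C.natAbs)

/-- the radical -/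
def rd (A B C : ℤ) : ℕ := R (A * B * C).natAbs

/-- the height and the radical of the triple `(A', B', C')` compared with those of `(A, B, C)` -/
structure Rel (d M : ℕ) (A B C A' B' C' : ℤ) : Prop where
  lo : ht A B C ^ d ≤ M * ht A' B' C'
  hi : ht A' B' C' ≤ M * ht A B C ^ d
  rad : rd A' B' C' ≤ M * rd A B C * ht A B C ^ (d - 1)

theorem Rel.mono {d M N : ℕ} {A B C A' B' C' : ℤ} (h : Rel d M A B C A' B' C') (hMN : M ≤ N) :
    Rel d N A B C A' B' C' :=
  ⟨h.lo.trans (Nat.mul_le_mul_right _ hMN), h.hi.trans (Nat.mul_le_mul_right _ hMN),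
    h.rad.trans (Nat.mul_le_mul_right _ (Nat.mul_le_mul_right _ hMN))⟩

theorem Rel.trans {d e M L : ℕ} {A B C A' B' C' A'' B'' C'' : ℤ} (hd : 1 ≤ d) (he : 1 ≤ e)
    (hM : 1 ≤ M)
    (h : Rel d M A B C A' B' C') (h' : Rel e L A' B' C' A'' B'' C'') :
    Rel (d * e) (L * M ^ e) A B C A'' B'' C'' := by
  refine ⟨?_, ?_, ?_⟩
  · calc ht A B C ^ (d * e) = (ht A B C ^ d) ^ e := pow_mul _ _ _
      _ ≤ (M * ht A' B' C') ^ e := Nat.pow_le_pow_left h.lo _
      _ = M ^ e * ht A' B' C' ^ e := mul_pow _ _ _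
      _ ≤ M ^ e * (L * ht A'' B'' C'') := Nat.mul_le_mul_left _ h'.lo
      _ = _ := by ring
  · calc ht A'' B'' C'' ≤ L * ht A' B' C' ^ e := h'.hi
      _ ≤ L * (M * ht A B C ^ d) ^ e := Nat.mul_le_mul_left _ (Nat.pow_le_pow_left h.hi _)
      _ = _ := by rw [mul_pow, ← pow_mul]; ring
  · calc rd A'' B'' C'' ≤ L * rd A' B' C' * ht A' B' C' ^ (e - 1) := h'.rad
      _ ≤ L * (M * rd A B C * ht A B C ^ (d - 1)) * (M * ht A B C ^ d) ^ (e - 1) := by
          refine Nat.mul_le_mul (Nat.mul_le_mul_left _ h.rad) (Nat.pow_le_pow_left h.hi _)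
      _ = L * (M * M ^ (e - 1)) * rd A B C * (ht A B C ^ (d - 1) * ht A B C ^ (d * (e - 1))) := by
          rw [mul_pow, ← pow_mul]; ring
      _ = _ := by
          rw [← pow_succ', ← pow_add, Nat.sub_add_cancel he]
          congr 2
          have : d * e = d * (e - 1) + d := by
            conv_lhs => rw [show e = e - 1 + 1 by omega]
            ring
          omega

/-- a system of maps -/
structure Sys (G : ℤ → ℤ → ℤ → Prop) (P : ℕ → ℤ → ℤ → ℤ → Prop) (d M : ℕ) : Prop where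
  hd : 2 ≤ d
  hM : 1 ≤ M
  step : ∀ A B C : ℤ, G A B C → 10 ≤ ht A B C → ∃ A' B' C' : ℤ, G A' B' C' ∧
    Rel d M A B C A' B' C' ∧ (∀ σ, P σ A B C → P (27 * σ) A' B' C') ∧ A * B * C ∣ A' * B' * C'

theorem Sys.iter {G : ℤ → ℤ → ℤ → Prop} {P : ℕ → ℤ → ℤ → ℤ → Prop} {d M : ℕ} (S : Sys G P d M)
    (k : ℕ) : ∃ L : ℕ, 1 ≤ L ∧ ∀ A B C : ℤ, G A B C → max 10 M ≤ ht A B C →
      ∃ A' B' C' : ℤ, G A' B' C' ∧ ht A B C ≤ ht A' B' C' ∧ Rel (d ^ k) L A B C A' B' C' ∧
        (∀ σ, P σ A B C → P (27 ^ k * σ) A' B' C') ∧ A * B * C ∣ A' * B' * C' := by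
  induction k with
  | zero =>
    refine ⟨1, le_rfl, fun A B C hG _ => ⟨A, B, C, hG, le_rfl, ⟨?_, ?_, ?_⟩, ?_, dvd_rfl⟩⟩
    · simp
    · simp
    · simp
    · intro σ h
      simpa using h
  | succ k ih =>
    obtain ⟨L, hL, ih⟩ := ih
    refine ⟨M * L ^ d, Nat.mul_pos S.hM (pow_pos hL d), fun A B C hG hH => ?_⟩
    obtain ⟨A', B', C', hG', hHH', hR, hP, hdv⟩ := ih A B C hG hH
    obtain ⟨A'', B'', C'', hG'', hR', hP', hdv'⟩ :=
      S.step A' B' C' hG' ((le_max_left _ _).trans (hH.trans hHH'))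
    refine ⟨A'', B'', C'', hG'', ?_, ?_, ?_, hdv.trans hdv'⟩
    · refine hHH'.trans ?_
      have h1 := hR'.lo
      have hMle : M ≤ ht A' B' C' := (le_max_right _ _).trans (hH.trans hHH')
      have h2 : M * ht A' B' C' ≤ M * ht A'' B'' C'' := by
        refine le_trans ?_ h1
        calc M * ht A' B' C' ≤ ht A' B' C' * ht A' B' C' := Nat.mul_le_mul_right _ hMle
          _ = ht A' B' C' ^ 2 := (sq _).symm
          _ ≤ ht A' B' C' ^ d := Nat.pow_le_pow_right (by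
              have := S.hM; omega) S.hd
      exact Nat.le_of_mul_le_mul_left h2 S.hM
    · rw [pow_succ]
      exact Rel.trans (Nat.one_le_pow _ _ (by have := S.hd; omega)) (by have := S.hd; omega) hL hR hR'
    · intro σ hσ
      have := hP' _ (hP σ hσ)
      rw [pow_succ]
      convert this using 1
      ring

/-! ## radicals -/

theorem R_mul_le' (m n : ℕ) (hn : n ≠ 0) : R (m * n) ≤ R m * n := by
  rcases Nat.eq_zero_or_pos m with rfl | hm
  · rw [zero_mul]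
    exact Nat.le_mul_of_pos_right _ (Nat.pos_of_ne_zero hn)
  · exact (R_mul_le m n hm.ne' hn).trans (Nat.mul_le_mul_left _ (R_le (Nat.pos_of_ne_zero hn)))

/-- if all primes which divide `x'` divide `x y`, then `R x' ≤ R x |y|` -/
theorem rad_bound {x x' y : ℤ} (hx : x ≠ 0) (hy : y ≠ 0)
    (h : ∀ p : ℤ, Prime p → p ∣ x' → p ∣ x * y) : R x'.natAbs ≤ R x.natAbs * y.natAbs := by
  refine le_trans (R_le_of_primes (n := x.natAbs * y.natAbs) ?_ ?_) (R_mul_le' _ _ ?_)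
  · exact Nat.mul_ne_zero (Int.natAbs_ne_zero.2 hx) (Int.natAbs_ne_zero.2 hy)
  · intro p hp hd
    have h1 : (p : ℤ) ∣ x' := Int.natCast_dvd.2 hd
    have h2 := h p (Nat.prime_iff_prime_int.1 hp) h1
    have h3 := Int.natCast_dvd.1 h2
    rwa [Int.natAbs_mul] at h3
  · exact Int.natAbs_ne_zero.2 hy

theorem ht_pos {A B C : ℤ} (h : A ≠ 0) : 0 < ht A B C :=
  lt_of_lt_of_le (Int.natAbs_pos.2 h) (le_max_left _ _)

theorem le_ht₁ (A B C : ℤ) : A.natAbs ≤ ht A B C := le_max_left _ _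
theorem le_ht₂ (A B C : ℤ) : B.natAbs ≤ ht A B C := (le_max_left _ _).trans (le_max_right _ _)
theorem le_ht₃ (A B C : ℤ) : C.natAbs ≤ ht A B C := (le_max_right _ _).trans (le_max_right _ _)

theorem ht_le {A B C : ℤ} {H : ℕ} (hA : A.natAbs ≤ H) (hB : B.natAbs ≤ H) (hC : C.natAbs ≤ H) :
    ht A B C ≤ H := max_le hA (max_le hB hC)

end Pool.Agent.H47SS
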