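import Mathlib
import Pool.Agent.H47SS.A

/-!
# The steps for the three Euclidean signatures
-/

set_option autoImplicit false

namespace Pool.Agent.H47SS

open Pool.Agent.N746.Self (R)

theorem OK.no_prime {A B C : ℤ} (h : OK A B C) {p : ℤ} (hp : Prime p) (hA : p ∣ A) (hB : p ∣ B) :
    False := by
  obtain ⟨u, v, huv⟩ := h.cop
  apply hp.not_isUnit
  rw [isUnit_iff_dvd_one, ← huv]
  exact dvd_add (Dvd.dvd.mul_left hA _) (Dvd.dvd.mul_left hB _)

theorem OK.no_prime₁₃ {A B C : ℤ} (h : OK A B C) {p : ℤ} (hp : Prime p) (hA : p ∣ A) (hC : p ∣ C) :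
    False := by
  refine h.no_prime hp hA ?_
  have : B = -(A + C) := by linarith [h.sum]
  rw [this]
  exact (dvd_add hA hC).neg_right

theorem OK.no_prime₂₃ {A B C : ℤ} (h : OK A B C) {p : ℤ} (hp : Prime p) (hB : p ∣ B) (hC : p ∣ C) :
    False := by
  refine h.no_prime hp ?_ hB
  have : A = -(B + C) := by linarith [h.sum]
  rw [this]
  exact (dvd_add hB hC).neg_right

theorem OK.mk' {A B C : ℤ} (hs : A + B + C = 0) (hA : A ≠ 0) (hB : B ≠ 0) (hC : C ≠ 0)
    (h : ∀ p : ℤ, Prime p → p ∣ A → p ∣ B → False) : OK A B C :=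
  ⟨hs, isCoprime_of_prime_dvd (fun h0 => hA h0.1) fun p hp h1 h2 => h p hp h1 h2, hA, hB, hC⟩

theorem OK.swap₁₂ {A B C : ℤ} (h : OK A B C) : OK B A C :=
  ⟨by linarith [h.sum], h.cop.symm, h.hB, h.hA, h.hC⟩

theorem OK.swap₂₃ {A B C : ℤ} (h : OK A B C) : OK A C B :=
  OK.mk' (by linarith [h.sum]) h.hA h.hC h.hB fun _ hp h1 h2 => h.no_prime₁₃ hp h1 h2

/-! ## signature (3, 3, 3) -/

def G333 (A B C : ℤ) : Prop := OK A B C ∧ 3 ∣ A * B * C

def P333 (σ : ℕ) (A B C : ℤ) : Prop := ∃ α β γ x y z : ℕ, A.natAbs = α * x ^ 3 ∧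
  B.natAbs = β * y ^ 3 ∧ C.natAbs = γ * z ^ 3 ∧ α * β * γ ≤ σ

theorem OK.ne {A B C : ℤ} (h : OK A B C) (hH : 3 ≤ ht A B C) : A ≠ B := by
  rintro rfl
  have h1 : IsUnit A := by
    have := h.cop
    rwa [isCoprime_self] at this
  have h2 : A.natAbs = 1 := Int.isUnit_iff_natAbs_eq.1 h1
  have hs := h.sum
  have h3 : C.natAbs = 2 := by omega
  have : ht A A C ≤ 2 := ht_le (by omega) (by omega) (by omega)
  omega

theorem ht_swap₁₂ (A B C : ℤ) : ht A B C = ht B A C := by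
  unfold ht
  omega

theorem ht_swap₂₃ (A B C : ℤ) : ht A B C = ht A C B := by
  unfold ht
  omega

theorem lo333 {A B C : ℤ} (hs : A + B + C = 0) (hA : A.natAbs ≤ C.natAbs)
    (hB : B.natAbs ≤ C.natAbs) :
    C.natAbs ^ 4 ≤ 2 * (A * (B - C) ^ 3).natAbs ∨ C.natAbs ^ 4 ≤ 2 * (B * (C - A) ^ 3).natAbs := by
  have h1 : C.natAbs ≤ (B - C).natAbs := by omega
  have h2 : C.natAbs ≤ (C - A).natAbs := by omega
  have h3 : C.natAbs ≤ 2 * A.natAbs ∨ C.natAbs ≤ 2 * B.natAbs := by omega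
  rcases h3 with h3 | h3
  · left
    rw [Int.natAbs_mul, Int.natAbs_pow]
    calc C.natAbs ^ 4 = C.natAbs * C.natAbs ^ 3 := by ring
      _ ≤ (2 * A.natAbs) * (B - C).natAbs ^ 3 :=
        Nat.mul_le_mul h3 (Nat.pow_le_pow_left h1 _)
      _ = _ := by ring
  · right
    rw [Int.natAbs_mul, Int.natAbs_pow]
    calc C.natAbs ^ 4 = C.natAbs * C.natAbs ^ 3 := by ring
      _ ≤ (2 * B.natAbs) * (C - A).natAbs ^ 3 :=
        Nat.mul_le_mul h3 (Nat.pow_le_pow_left h2 _)
      _ = _ := by ring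

theorem sys333 : Sys G333 P333 4 8 := by
  refine ⟨by norm_num, by norm_num, ?_⟩
  rintro A B C ⟨h, h3⟩ hH
  have hs := h.sum
  have hAB : A ≠ B := h.ne (by omega)
  have hAC : A ≠ C := h.swap₂₃.ne (by rw [← ht_swap₂₃]; omega)
  have hBC : B ≠ C := h.swap₁₂.swap₂₃.ne (by rw [← ht_swap₂₃, ← ht_swap₁₂]; omega)
  have hBC' : B - C ≠ 0 := sub_ne_zero.2 hBC
  have hCA' : C - A ≠ 0 := sub_ne_zero.2 hAC.symm
  have hAB' : A - B ≠ 0 := sub_ne_zero.2 hAB
  have hdv : A * B * C ∣ (A * (B - C) ^ 3) * (B * (C - A) ^ 3) * (C * (A - B) ^ 3) :=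
    ⟨((B - C) * (C - A) * (A - B)) ^ 3, by ring⟩
  have h3' : ∀ p : ℤ, Prime p → p ∣ B - C → p ∣ C - A → False := by
    intro p hp h1 h2
    have h4 : p ∣ 3 * A := by
      have : 3 * A = -(B - C) - 2 * (C - A) + (A + B + C) := by ring
      rw [this, hs, add_zero]
      exact dvd_sub h1.neg_right (Dvd.dvd.mul_left h2 _)
    rcases hp.dvd_or_dvd h4 with h5 | h5
    · have h6 : Associated p 3 := by
        have h30 : Prime (3 : ℤ) := Int.prime_three
        exact hp.associated_of_dvd h30 h5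
      have h1' : (3 : ℤ) ∣ B - C := h6.dvd_iff_dvd_left.1 h1
      have h2' : (3 : ℤ) ∣ C - A := h6.dvd_iff_dvd_left.1 h2
      rcases Int.prime_three.dvd_or_dvd h3 with h7 | h7
      · rcases Int.prime_three.dvd_or_dvd h7 with h8 | h8
        · exact h.no_prime₁₃ Int.prime_three h8 (by omega)
        · exact h.no_prime₂₃ Int.prime_three h8 (by omega)
      · exact h.no_prime₁₃ Int.prime_three (by omega) h7
    · exact h.no_prime₁₃ hp h5 (by
        have : C = (C - A) + A := by ring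
        rw [this]
        exact dvd_add h2 h5)
  refine ⟨A * (B - C) ^ 3, B * (C - A) ^ 3, C * (A - B) ^ 3, ⟨?_, h3.trans hdv⟩, ⟨?_, ?_, ?_⟩, ?_, hdv⟩
  · refine OK.mk' ?_ (mul_ne_zero h.hA (pow_ne_zero _ hBC')) (mul_ne_zero h.hB (pow_ne_zero _ hCA'))
      (mul_ne_zero h.hC (pow_ne_zero _ hAB')) ?_
    · have : C = -(A + B) := by linarith
      rw [this]
      ring
    · intro p hp h1 h2
      rcases hp.dvd_or_dvd h1 with h1 | h1
      · rcases hp.dvd_or_dvd h2 with h2 | h2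
        · exact h.no_prime hp h1 h2
        · have h2 := hp.dvd_of_dvd_pow h2
          exact h.no_prime₁₃ hp h1 (by
            have : C = (C - A) + A := by ring
            rw [this]
            exact dvd_add h2 h1)
      · have h1 := hp.dvd_of_dvd_pow h1
        rcases hp.dvd_or_dvd h2 with h2 | h2
        · exact h.no_prime₂₃ hp h2 (by
            have : C = B - (B - C) := by ring
            rw [this]
            exact dvd_sub h2 h1)
        · exact h3' p hp h1 (hp.dvd_of_dvd_pow h2)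
  · -- lower bound
    have hmax : ht A B C = C.natAbs ∨ ht A B C = A.natAbs ∨ ht A B C = B.natAbs := by
      unfold ht; omega
    have l1 := le_ht₁ A B C
    have l2 := le_ht₂ A B C
    have l3 := le_ht₃ A B C
    have m1 := le_ht₁ (A * (B - C) ^ 3) (B * (C - A) ^ 3) (C * (A - B) ^ 3)
    have m2 := le_ht₂ (A * (B - C) ^ 3) (B * (C - A) ^ 3) (C * (A - B) ^ 3)
    have m3 := le_ht₃ (A * (B - C) ^ 3) (B * (C - A) ^ 3) (C * (A - B) ^ 3)
    rcases hmax with h5 | h5 | h5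
    · rw [h5] at l1 l2
      rw [h5]
      rcases lo333 hs l1 l2 with h6 | h6 <;> omega
    · rw [h5] at l2 l3
      rw [h5]
      rcases lo333 (A := B) (B := C) (C := A) (by linarith) l2 l3 with h6 | h6 <;> omega
    · rw [h5] at l1 l3
      rw [h5]
      rcases lo333 (A := C) (B := A) (C := B) (by linarith) l3 l1 with h6 | h6 <;> omega
  · -- upper bound
    have l1 := le_ht₁ A B C
    have l2 := le_ht₂ A B C
    have l3 := le_ht₃ A B C
    have key : ∀ x y : ℤ, x.natAbs ≤ ht A B C → y.natAbs ≤ 2 * ht A B C →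
        (x * y ^ 3).natAbs ≤ 8 * ht A B C ^ 4 := by
      intro x y hx hy
      rw [Int.natAbs_mul, Int.natAbs_pow]
      calc x.natAbs * y.natAbs ^ 3 ≤ ht A B C * (2 * ht A B C) ^ 3 :=
            Nat.mul_le_mul hx (Nat.pow_le_pow_left hy _)
        _ = _ := by ring
    exact ht_le (key _ _ l1 (by omega)) (key _ _ l2 (by omega)) (key _ _ l3 (by omega))
  · -- radical
    have l1 := le_ht₁ A B C
    have l2 := le_ht₂ A B C
    have l3 := le_ht₃ A B C
    have h0 : A * B * C ≠ 0 := mul_ne_zero (mul_ne_zero h.hA h.hB) h.hC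
    have hy : (B - C) * (C - A) * (A - B) ≠ 0 := mul_ne_zero (mul_ne_zero hBC' hCA') hAB'
    have h5 := rad_bound (x' := (A * (B - C) ^ 3) * (B * (C - A) ^ 3) * (C * (A - B) ^ 3)) h0 hy (by
      intro p hp h6
      have : (A * (B - C) ^ 3) * (B * (C - A) ^ 3) * (C * (A - B) ^ 3) =
        (A * B * C) * ((B - C) * (C - A) * (A - B)) ^ 3 := by ring
      rw [this] at h6
      rcases hp.dvd_or_dvd h6 with h7 | h7
      · exact Dvd.dvd.mul_right h7 _
      · exact Dvd.dvd.mul_left (hp.dvd_of_dvd_pow h7) _)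
    refine le_trans h5 ?_
    have h6 : ((B - C) * (C - A) * (A - B)).natAbs ≤ 8 * ht A B C ^ 3 := by
      rw [Int.natAbs_mul, Int.natAbs_mul]
      calc (B - C).natAbs * (C - A).natAbs * (A - B).natAbs
          ≤ (2 * ht A B C) * (2 * ht A B C) * (2 * ht A B C) :=
            Nat.mul_le_mul (Nat.mul_le_mul (by omega) (by omega)) (by omega)
        _ = _ := by ring
    calc R (A * B * C).natAbs * ((B - C) * (C - A) * (A - B)).natAbs
        ≤ R (A * B * C).natAbs * (8 * ht A B C ^ 3) := Nat.mul_le_mul_left _ h6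
      _ = 8 * rd A B C * ht A B C ^ (4 - 1) := by unfold rd; ring
  · rintro σ ⟨α, β, γ, x, y, z, hα, hβ, hγ, hσ⟩
    refine ⟨α, β, γ, x * (B - C).natAbs, y * (C - A).natAbs, z * (A - B).natAbs, ?_, ?_, ?_, by omega⟩
    · rw [Int.natAbs_mul, Int.natAbs_pow, hα]; ring
    · rw [Int.natAbs_mul, Int.natAbs_pow, hβ]; ring
    · rw [Int.natAbs_mul, Int.natAbs_pow, hγ]; ring

end Pool.Agent.H47SS
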