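import Mathlib
import Pool.Agent.H47SS.B

/-!
# The steps for the signatures (4, 4, 2) and (2, 3, 6)
-/

set_option autoImplicit false

namespace Pool.Agent.H47SS

open Pool.Agent.N746.Self (R)

/-! ## signature (4, 4, 2) -/

def G442 (A B C : ℤ) : Prop := OK A B C ∧ Odd C

def P442 (σ : ℕ) (A B C : ℤ) : Prop := ∃ α β γ x y z : ℕ, A.natAbs = α * x ^ 4 ∧
  B.natAbs = β * y ^ 4 ∧ C.natAbs = γ * z ^ 2 ∧ α * β * γ ^ 2 ≤ σ

theorem sys442 : Sys G442 P442 2 4 := by
  refine ⟨by norm_num, by norm_num, ?_⟩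
  rintro A B C ⟨h, hodd⟩ hH
  have hs := h.sum
  have hAB : A ≠ B := h.ne (by omega)
  have hAB' : A - B ≠ 0 := sub_ne_zero.2 hAB
  have l1 := le_ht₁ A B C
  have l2 := le_ht₂ A B C
  have l3 := le_ht₃ A B C
  have hdv : A * B * C ∣ (-4 * A * B) * C ^ 2 * (-(A - B) ^ 2) :=
    ⟨4 * C * (A - B) ^ 2, by ring⟩
  have hABo : Odd (A - B) := by
    obtain ⟨k, hk⟩ := hodd
    exact ⟨-k - B - 1, by linarith⟩
  refine ⟨-4 * A * B, C ^ 2, -(A - B) ^ 2, ⟨?_, ?_⟩, ⟨?_, ?_, ?_⟩, ?_, hdv⟩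
  · refine OK.mk' ?_ ?_ (pow_ne_zero _ h.hC) (neg_ne_zero.2 (pow_ne_zero _ hAB')) ?_
    · have : C = -(A + B) := by linarith
      rw [this]
      ring
    · exact mul_ne_zero (mul_ne_zero (by norm_num) h.hA) h.hB
    · intro p hp h1 h2
      have h2 := hp.dvd_of_dvd_pow h2
      rcases hp.dvd_or_dvd h1 with h1 | h1
      · rcases hp.dvd_or_dvd h1 with h1 | h1
        · have h3 : p ∣ 2 := by
            have : p ∣ 2 ^ 2 := by
              have h4 : (2 : ℤ) ^ 2 = -(-4) := by norm_num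
              rw [h4]
              exact h1.neg_right
            exact hp.dvd_of_dvd_pow this
          have h4 : Associated p 2 := hp.associated_of_dvd Int.prime_two h3
          have h5 : (2 : ℤ) ∣ C := h4.dvd_iff_dvd_left.1 h2
          obtain ⟨k, hk⟩ := hodd
          omega
        · exact h.no_prime₁₃ hp h1 h2
      · exact h.no_prime₂₃ hp h1 h2
  · exact (hABo.pow).neg
  · -- lower bound
    have m2 := le_ht₂ (-4 * A * B) (C ^ 2) (-(A - B) ^ 2)
    have m3 := le_ht₃ (-4 * A * B) (C ^ 2) (-(A - B) ^ 2)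
    have h5 : ht A B C ≤ C.natAbs ∨ ht A B C ≤ (A - B).natAbs := by
      unfold ht; omega
    rw [Int.natAbs_pow] at m2
    rw [Int.natAbs_neg, Int.natAbs_pow] at m3
    rcases h5 with h5 | h5
    · have := Nat.pow_le_pow_left h5 2
      omega
    · have := Nat.pow_le_pow_left h5 2
      omega
  · -- upper bound
    refine ht_le ?_ ?_ ?_
    · rw [Int.natAbs_mul, Int.natAbs_mul]
      calc (-4 : ℤ).natAbs * A.natAbs * B.natAbs ≤ 4 * ht A B C * ht A B C :=
            Nat.mul_le_mul (Nat.mul_le_mul (by norm_num) l1) l2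
        _ = _ := by ring
    · rw [Int.natAbs_pow]
      have := Nat.pow_le_pow_left l3 2
      omega
    · rw [Int.natAbs_neg, Int.natAbs_pow]
      calc (A - B).natAbs ^ 2 ≤ (2 * ht A B C) ^ 2 := Nat.pow_le_pow_left (by omega) 2
        _ = _ := by ring
  · -- radical
    have h0 : A * B * C ≠ 0 := mul_ne_zero (mul_ne_zero h.hA h.hB) h.hC
    have hy : 2 * (A - B) ≠ 0 := mul_ne_zero (by norm_num) hAB'
    have h5 := rad_bound (x' := (-4 * A * B) * C ^ 2 * (-(A - B) ^ 2)) h0 hy (by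
      intro p hp h6
      have h7 : (-4 * A * B) * C ^ 2 * (-(A - B) ^ 2) = (A * B * C) * (C * (2 * (A - B)) ^ 2) := by ring
      rw [h7] at h6
      rcases hp.dvd_or_dvd h6 with h7 | h7
      · exact Dvd.dvd.mul_right h7 _
      · rcases hp.dvd_or_dvd h7 with h8 | h8
        · exact Dvd.dvd.mul_right (Dvd.dvd.mul_left h8 _) _
        · exact Dvd.dvd.mul_left (hp.dvd_of_dvd_pow h8) _)
    refine le_trans h5 ?_
    have h6 : (2 * (A - B)).natAbs ≤ 4 * ht A B C := by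
      omega
    calc R (A * B * C).natAbs * (2 * (A - B)).natAbs
        ≤ R (A * B * C).natAbs * (4 * ht A B C) := Nat.mul_le_mul_left _ h6
      _ = 4 * rd A B C * ht A B C ^ (2 - 1) := by unfold rd; ring
  · rintro σ ⟨α, β, γ, x, y, z, hα, hβ, hγ, hσ⟩
    refine ⟨4 * α * β, γ ^ 2, 1, x * y, z, (A - B).natAbs, ?_, ?_, ?_, ?_⟩
    · rw [Int.natAbs_mul, Int.natAbs_mul, hα, hβ]
      have : (-4 : ℤ).natAbs = 4 := rfl
      rw [this]; ring
    · rw [Int.natAbs_pow, hγ]; ring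
    · rw [Int.natAbs_neg, Int.natAbs_pow]; ring
    · have : 4 * α * β * γ ^ 2 * 1 ^ 2 = 4 * (α * β * γ ^ 2) := by ring
      omega

/-! ## signature (2, 3, 6) -/

def G236 (A B C : ℤ) : Prop := OK A B C ∧ Odd B ∧ ¬ 3 ∣ A

def P236 (σ : ℕ) (A B C : ℤ) : Prop := ∃ α β γ x y z : ℕ, A.natAbs = α * x ^ 2 ∧
  B.natAbs = β * y ^ 3 ∧ C.natAbs = γ * z ^ 6 ∧ α * β ^ 2 * γ ≤ σ

theorem sys236 : Sys G236 P236 3 135 := by
  refine ⟨by norm_num, by norm_num, ?_⟩
  rintro A B C ⟨h, hodd, h3⟩ hH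
  have hs := h.sum
  have l1 := le_ht₁ A B C
  have l2 := le_ht₂ A B C
  have l3 := le_ht₃ A B C
  have hCu : ∀ k : ℤ, B = k * C → C.natAbs = 1 := by
    intro k hk
    have h1 : IsUnit C := by
      by_contra h2
      obtain ⟨p, hp, hpd⟩ := Int.exists_prime_and_dvd (n := C) (fun h4 => h2 (Int.isUnit_iff_natAbs_eq.2 h4))
      exact h.no_prime₂₃ hp (by rw [hk]; exact Dvd.dvd.mul_left hpd _) hpd
    exact Int.isUnit_iff_natAbs_eq.1 h1
  have hn1 : 8 * C - B ≠ 0 := by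
    intro h1
    have h2 := hCu 8 (by linarith)
    have : ht A B C ≤ 9 := ht_le (by omega) (by omega) (by omega)
    omega
  have hn2 : 4 * C + B ≠ 0 := by
    intro h1
    have h2 := hCu (-4) (by linarith)
    have : ht A B C ≤ 9 := ht_le (by omega) (by omega) (by omega)
    omega
  have hdv : A * B * C ∣ (-(A * (8 * C - B) ^ 2)) * (-(4 * C + B) ^ 3) * (27 * C * B ^ 2) :=
    ⟨27 * B * (8 * C - B) ^ 2 * (4 * C + B) ^ 3, by ring⟩
  have hodd4 : Odd (4 * C + B) := by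
    obtain ⟨k, hk⟩ := hodd
    exact ⟨2 * C + k, by linarith⟩
  have p3 : ∀ p : ℤ, Prime p → p ∣ 3 → p ∣ A → False := by
    intro p hp h1 h2
    exact h3 ((hp.associated_of_dvd Int.prime_three h1).dvd_iff_dvd_left.1 h2)
  have h3' : ¬ (3 : ℤ) ∣ 8 * C - B := by omega
  refine ⟨-(A * (8 * C - B) ^ 2), -(4 * C + B) ^ 3, 27 * C * B ^ 2, ⟨?_, ?_, ?_⟩, ⟨?_, ?_, ?_⟩, ?_, hdv⟩
  · refine OK.mk' ?_ (neg_ne_zero.2 (mul_ne_zero h.hA (pow_ne_zero _ hn1)))
      (neg_ne_zero.2 (pow_ne_zero _ hn2)) (mul_ne_zero (mul_ne_zero (by norm_num) h.hC) (pow_ne_zero _ h.hB)) ?_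
    · have : A = -(B + C) := by linarith
      rw [this]
      ring
    · intro p hp h1 h2
      have h2 := hp.dvd_of_dvd_pow ((dvd_neg).1 h2)
      rcases hp.dvd_or_dvd ((dvd_neg).1 h1) with h1 | h1
      · have h4 : p ∣ 3 * C := by
          have : 3 * C = (4 * C + B) + A - (A + B + C) := by ring
          rw [this, hs, sub_zero]
          exact dvd_add h2 h1
        rcases hp.dvd_or_dvd h4 with h5 | h5
        · exact p3 p hp h5 h1
        · exact h.no_prime₁₃ hp h1 h5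
      · have h1 := hp.dvd_of_dvd_pow h1
        have h4 : p ∣ 2 ^ 2 * 3 * C := by
          have : 2 ^ 2 * 3 * C = (4 * C + B) + (8 * C - B) := by ring
          rw [this]
          exact dvd_add h2 h1
        rcases hp.dvd_or_dvd h4 with h5 | h5
        · rcases hp.dvd_or_dvd h5 with h6 | h6
          · have h7 := hp.dvd_of_dvd_pow h6
            have h8 : (2 : ℤ) ∣ 4 * C + B :=
              (hp.associated_of_dvd Int.prime_two h7).dvd_iff_dvd_left.1 h2
            obtain ⟨k, hk⟩ := hodd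
            omega
          · exact h3' ((hp.associated_of_dvd Int.prime_three h6).dvd_iff_dvd_left.1 h1)
        · have h6 : p ∣ B := by
            have : B = (4 * C + B) - 4 * C := by ring
            rw [this]
            exact dvd_sub h2 (Dvd.dvd.mul_left h5 _)
          exact h.no_prime₂₃ hp h6 h5
  · exact (hodd4.pow).neg
  · intro h4
    rcases Int.prime_three.dvd_or_dvd ((dvd_neg).1 h4) with h5 | h5
    · exact h3 h5
    · exact h3' (Int.prime_three.dvd_of_dvd_pow h5)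
  · -- lower bound
    have m2 := le_ht₂ (-(A * (8 * C - B) ^ 2)) (-(4 * C + B) ^ 3) (27 * C * B ^ 2)
    have m3 := le_ht₃ (-(A * (8 * C - B) ^ 2)) (-(4 * C + B) ^ 3) (27 * C * B ^ 2)
    rw [Int.natAbs_neg, Int.natAbs_pow] at m2
    rw [Int.natAbs_mul, Int.natAbs_mul, Int.natAbs_pow] at m3
    have m3' : 27 * C.natAbs * B.natAbs ^ 2 ≤ ht (-(A * (8 * C - B) ^ 2)) (-(4 * C + B) ^ 3) (27 * C * B ^ 2) := m3
    have h5 : ht A B C ≤ 4 * (4 * C + B).natAbs ∨
        (ht A B C ≤ 2 * B.natAbs ∧ ht A B C ≤ 16 * C.natAbs) := by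
      unfold ht; omega
    rcases h5 with h5 | ⟨h5, h6⟩
    · calc ht A B C ^ 3 ≤ (4 * (4 * C + B).natAbs) ^ 3 := Nat.pow_le_pow_left h5 3
        _ = 64 * (4 * C + B).natAbs ^ 3 := by ring
        _ ≤ _ := by omega
    · calc ht A B C ^ 3 = ht A B C * ht A B C ^ 2 := by ring
        _ ≤ (16 * C.natAbs) * (2 * B.natAbs) ^ 2 := Nat.mul_le_mul h6 (Nat.pow_le_pow_left h5 2)
        _ = 64 * (C.natAbs * B.natAbs ^ 2) := by ring
        _ ≤ 135 * (27 * C.natAbs * B.natAbs ^ 2) := by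
          have : 27 * C.natAbs * B.natAbs ^ 2 = 27 * (C.natAbs * B.natAbs ^ 2) := by ring
          omega
        _ ≤ _ := Nat.mul_le_mul_left _ m3'
  · -- upper bound
    refine ht_le ?_ ?_ ?_
    · rw [Int.natAbs_neg, Int.natAbs_mul, Int.natAbs_pow]
      calc A.natAbs * (8 * C - B).natAbs ^ 2 ≤ ht A B C * (9 * ht A B C) ^ 2 :=
            Nat.mul_le_mul l1 (Nat.pow_le_pow_left (by omega) 2)
        _ = 81 * ht A B C ^ 3 := by ring
        _ ≤ _ := Nat.mul_le_mul_right _ (by norm_num)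
    · rw [Int.natAbs_neg, Int.natAbs_pow]
      calc (4 * C + B).natAbs ^ 3 ≤ (5 * ht A B C) ^ 3 := Nat.pow_le_pow_left (by omega) 3
        _ = 125 * ht A B C ^ 3 := by ring
        _ ≤ _ := Nat.mul_le_mul_right _ (by norm_num)
    · rw [Int.natAbs_mul, Int.natAbs_mul, Int.natAbs_pow]
      calc (27 : ℤ).natAbs * C.natAbs * B.natAbs ^ 2 ≤ 27 * ht A B C * ht A B C ^ 2 :=
            Nat.mul_le_mul (Nat.mul_le_mul (by norm_num) l3) (Nat.pow_le_pow_left l2 2)
        _ = 27 * ht A B C ^ 3 := by ring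
        _ ≤ _ := Nat.mul_le_mul_right _ (by norm_num)
  · -- radical
    have h0 : A * B * C ≠ 0 := mul_ne_zero (mul_ne_zero h.hA h.hB) h.hC
    have hy : 3 * (8 * C - B) * (4 * C + B) ≠ 0 := mul_ne_zero (mul_ne_zero (by norm_num) hn1) hn2
    have h5 := rad_bound (x' := (-(A * (8 * C - B) ^ 2)) * (-(4 * C + B) ^ 3) * (27 * C * B ^ 2)) h0 hy (by
      intro p hp h6
      have h7 : (-(A * (8 * C - B) ^ 2)) * (-(4 * C + B) ^ 3) * (27 * C * B ^ 2) =
        (A * B * C) * (B * (4 * C + B) * (3 * (3 * (8 * C - B) * (4 * C + B)) ^ 2)) := by ring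
      rw [h7] at h6
      rcases hp.dvd_or_dvd h6 with h7 | h7
      · exact Dvd.dvd.mul_right h7 _
      · rcases hp.dvd_or_dvd h7 with h8 | h8
        · rcases hp.dvd_or_dvd h8 with h9 | h9
          · exact Dvd.dvd.mul_right (Dvd.dvd.mul_right (Dvd.dvd.mul_left h9 _) _) _
          · exact Dvd.dvd.mul_left (Dvd.dvd.mul_left h9 _) _
        · rcases hp.dvd_or_dvd h8 with h9 | h9
          · exact Dvd.dvd.mul_left (Dvd.dvd.mul_right (Dvd.dvd.mul_right h9 _) _) _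
          · exact Dvd.dvd.mul_left (hp.dvd_of_dvd_pow h9) _)
    refine le_trans h5 ?_
    have h6 : (3 * (8 * C - B) * (4 * C + B)).natAbs ≤ 135 * ht A B C ^ 2 := by
      rw [Int.natAbs_mul]
      calc (3 * (8 * C - B)).natAbs * (4 * C + B).natAbs ≤ (27 * ht A B C) * (5 * ht A B C) :=
            Nat.mul_le_mul (by omega) (by omega)
        _ = _ := by ring
    calc R (A * B * C).natAbs * (3 * (8 * C - B) * (4 * C + B)).natAbs
        ≤ R (A * B * C).natAbs * (135 * ht A B C ^ 2) := Nat.mul_le_mul_left _ h6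
      _ = 135 * rd A B C * ht A B C ^ (3 - 1) := by unfold rd; ring
  · rintro σ ⟨α, β, γ, x, y, z, hα, hβ, hγ, hσ⟩
    refine ⟨α, 1, 27 * γ * β ^ 2, x * (8 * C - B).natAbs, (4 * C + B).natAbs, z * y, ?_, ?_, ?_, ?_⟩
    · rw [Int.natAbs_neg, Int.natAbs_mul, Int.natAbs_pow, hα]; ring
    · rw [Int.natAbs_neg, Int.natAbs_pow]; ring
    · rw [Int.natAbs_mul, Int.natAbs_mul, Int.natAbs_pow, hβ, hγ]
      have : (27 : ℤ).natAbs = 27 := rfl
      rw [this]; ring
    · have : α * 1 ^ 2 * (27 * γ * β ^ 2) = 27 * (α * β ^ 2 * γ) := by ring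
      omega

end Pool.Agent.H47SS
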