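import Mathlib
import Pool.Agent.N746.Self.Tools
import Pool.Agent.H47SS.C

/-!
# The equivalence for one signature
-/

set_option autoImplicit false

namespace Pool.Agent.H47SS

open Pool.Agent.N746.Self (R ABC R_pos transfer to_univ power_map exists_pow_idem dvd_of_idem)

/-- the triple consists of almost perfect powers with exponents `p`, `q`, `r` -/
def Almost (p q r N : ℕ) (δ : ℝ) (a b c : ℕ) : Prop :=
  N ∣ a * b * c ∧ ∃ α β γ x y z : ℕ,
    ({a, b, c} : Multiset ℕ) = {α * x ^ p, β * y ^ q, γ * z ^ r} ∧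
      ((α * β * γ : ℕ) : ℝ) ≤ (c : ℝ) ^ δ

theorem ms_swap₁₂ (a b c : ℕ) : ({a, b, c} : Multiset ℕ) = {b, a, c} :=
  Multiset.cons_swap a b {c}

theorem ms_swap₂₃ (a b c : ℕ) : ({a, b, c} : Multiset ℕ) = {a, c, b} :=
  congrArg (Multiset.cons a) (Multiset.cons_swap b c 0)

theorem Almost.swap₁₂ {p q r N : ℕ} {δ : ℝ} {a b c : ℕ} (h : Almost p q r N δ a b c) :
    Almost q p r N δ a b c := by
  obtain ⟨h1, α, β, γ, x, y, z, h2, h3⟩ := h
  refine ⟨h1, β, α, γ, y, x, z, ?_, ?_⟩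
  · rw [h2]; exact ms_swap₁₂ _ _ _
  · rwa [mul_comm β α]

theorem Almost.swap₂₃ {p q r N : ℕ} {δ : ℝ} {a b c : ℕ} (h : Almost p q r N δ a b c) :
    Almost p r q N δ a b c := by
  obtain ⟨h1, α, β, γ, x, y, z, h2, h3⟩ := h
  refine ⟨h1, α, γ, β, x, z, y, ?_, ?_⟩
  · rw [h2]; exact ms_swap₂₃ _ _ _
  · rwa [mul_right_comm α γ β]

theorem toNat {A B C : ℤ} (h : OK A B C) : ∃ a b c : ℕ, 0 < a ∧ 0 < b ∧ Nat.Coprime a b ∧
    a + b = c ∧ c = ht A B C ∧ a * b * c = (A * B * C).natAbs ∧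
    ({a, b, c} : Multiset ℕ) = {A.natAbs, B.natAbs, C.natAbs} := by
  have hs := h.sum
  have hA := Int.natAbs_pos.2 h.hA
  have hB := Int.natAbs_pos.2 h.hB
  have hC := Int.natAbs_pos.2 h.hC
  have h1 : B.natAbs + C.natAbs = A.natAbs ∨ A.natAbs + C.natAbs = B.natAbs ∨
      A.natAbs + B.natAbs = C.natAbs := by omega
  have hcop : ∀ {x y z : ℤ}, OK x y z → Nat.Coprime x.natAbs y.natAbs := fun h =>
    Int.isCoprime_iff_nat_coprime.1 h.cop
  rcases h1 with h1 | h1 | h1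
  · refine ⟨B.natAbs, C.natAbs, A.natAbs, hB, hC, hcop (h.swap₁₂.swap₂₃ : OK B C A), h1, ?_, ?_, ?_⟩
    · unfold ht; omega
    · rw [Int.natAbs_mul, Int.natAbs_mul]; ring
    · rw [ms_swap₂₃, ms_swap₁₂]
  · refine ⟨A.natAbs, C.natAbs, B.natAbs, hA, hC, hcop h.swap₂₃, h1, ?_, ?_, ?_⟩
    · unfold ht; omega
    · rw [Int.natAbs_mul, Int.natAbs_mul]; ring
    · rw [ms_swap₂₃]
  · refine ⟨A.natAbs, B.natAbs, C.natAbs, hA, hB, hcop h, h1, ?_, ?_, rfl⟩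
    · unfold ht; omega
    · rw [Int.natAbs_mul, Int.natAbs_mul]

/-- what is needed of the system of maps -/
structure Good (G : ℤ → ℤ → ℤ → Prop) (P : ℕ → ℤ → ℤ → ℤ → Prop) (p q r : ℕ) : Prop where
  ok : ∀ A B C : ℤ, G A B C → OK A B C
  start : ∀ A B C : ℤ, OK A B C → 6 ∣ A * B * C → ∃ A' B' C' : ℤ, G A' B' C' ∧
    ht A' B' C' = ht A B C ∧ A' * B' * C' = A * B * C ∧ P (ht A B C ^ 4) A' B' C'
  fin : ∀ (σ : ℕ) (A B C : ℤ), G A B C → P σ A B C → ∃ α β γ x y z : ℕ, A.natAbs = α * x ^ p ∧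
    B.natAbs = β * y ^ q ∧ C.natAbs = γ * z ^ r ∧ α * β * γ ≤ σ

theorem main {G : ℤ → ℤ → ℤ → Prop} {P : ℕ → ℤ → ℤ → ℤ → Prop} {d M p q r : ℕ}
    (hS : Sys G P d M) (hG : Good G P p q r) (N : ℕ) (hN : 1 ≤ N) (δ : ℝ) (hδ : 0 < δ) :
    ABC (Almost p q r N δ) ↔ ABC fun _ _ _ => True := by
  refine ⟨fun hT => ?_, to_univ⟩
  -- the number of iterations
  obtain ⟨k, hk⟩ : ∃ k : ℕ, 5 ≤ δ * (d : ℝ) ^ k := by
    obtain ⟨k, hk⟩ := pow_unbounded_of_one_lt (5 / δ) (show (1 : ℝ) < d by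
      have := hS.hd
      exact_mod_cast (by omega : 1 < d))
    refine ⟨k, ?_⟩
    rw [div_lt_iff₀ hδ] at hk
    linarith
  obtain ⟨L, hL, hit⟩ := hS.iter k
  have : NeZero (6 * N) := ⟨by omega⟩
  obtain ⟨m, hm, hidem⟩ := exists_pow_idem (6 * N)
  have hm1 : 1 ≤ m := Nat.one_le_iff_ne_zero.2 hm
  have hd1 : 1 ≤ d ^ k := Nat.one_le_pow _ _ (by have := hS.hd; omega)
  set c₀ : ℕ := max (max 10 M) ⌈(27 : ℝ) ^ k * (L : ℝ) ^ δ⌉₊ with hc₀
  have hmD : 1 ≤ m * d ^ k := Nat.mul_pos hm1 hd1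
  refine transfer _ (m * d ^ k) (L * m) c₀ ?_ ?_ hT
  · have h1 : (1 : ℝ) ≤ L := by exact_mod_cast hL
    have h2 : (1 : ℝ) ≤ m := by exact_mod_cast hm1
    nlinarith
  intro a b c ha hb hab habc hcc
  have hc : 0 < c := by omega
  have hlt : a ^ m < c ^ m := Nat.pow_lt_pow_left (by omega) hm
  obtain ⟨b₁, hb₁⟩ : ∃ b₁, a ^ m + b₁ = c ^ m := ⟨c ^ m - a ^ m, by omega⟩
  have hb₁' : b₁ = c ^ m - a ^ m := by omega
  have hb₁0 : 0 < b₁ := by omega
  have hcop : Nat.Coprime (a ^ m) b₁ := by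
    have h1 : Nat.Coprime a c := by rw [← habc]; simpa using hab
    have h2 : Nat.Coprime (a ^ m) (c ^ m) := h1.pow m m
    rw [← hb₁] at h2
    simpa using h2
  have hOK : OK (a ^ m : ℕ) (b₁ : ℕ) (-(c ^ m : ℕ)) := by
    refine ⟨?_, Nat.isCoprime_iff_coprime.2 hcop, ?_, ?_, ?_⟩
    · rw [← hb₁]; push_cast; ring
    · exact_mod_cast (pow_pos ha m).ne'
    · exact_mod_cast hb₁0.ne'
    · exact neg_ne_zero.2 (by exact_mod_cast (pow_pos hc m).ne')
  have hht : ht (a ^ m : ℕ) (b₁ : ℕ) (-(c ^ m : ℕ)) = c ^ m := by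
    unfold ht
    rw [Int.natAbs_neg, Int.natAbs_natCast, Int.natAbs_natCast, Int.natAbs_natCast]
    omega
  have habs : ((a ^ m : ℕ) * (b₁ : ℕ) * (-(c ^ m : ℕ)) : ℤ).natAbs = a ^ m * b₁ * c ^ m := by
    rw [Int.natAbs_mul, Int.natAbs_mul, Int.natAbs_neg, Int.natAbs_natCast, Int.natAbs_natCast,
      Int.natAbs_natCast]
  have hdvd : 6 * N ∣ a ^ m * b₁ * c ^ m := by
    have := dvd_of_idem (6 * N) m hidem 1 a c (by omega)
    rw [mul_one] at this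
    rw [hb₁']
    exact this
  have h6 : (6 : ℤ) ∣ (a ^ m : ℕ) * (b₁ : ℕ) * (-(c ^ m : ℕ)) := by
    have h1 : 6 ∣ ((a ^ m : ℕ) * (b₁ : ℕ) * (-(c ^ m : ℕ)) : ℤ).natAbs := by
      rw [habs]
      exact (Dvd.intro _ rfl).trans hdvd
    exact Int.natCast_dvd.2 h1
  obtain ⟨A, B, C, hGA, hht', hprod, hP⟩ := hG.start _ _ _ hOK h6
  rw [hht] at hht' hP
  have hccm : c ≤ c ^ m := Nat.le_self_pow hm c
  obtain ⟨A', B', C', hG', hmono, hR, hP', hdv⟩ := hit A B C hGA (by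
    rw [hht']
    exact ((le_max_left _ _).trans hcc).trans hccm)
  obtain ⟨a', b', c', ha', hb', hab', habc', hc', hprod', hms⟩ := toNat (hG.ok _ _ _ hG')
  refine ⟨m * d ^ k, a', b', c', hmD, le_rfl, ha', hb', hab', habc', ⟨?_, ?_⟩, ?_, ?_⟩
  · -- divisibility
    rw [hprod']
    have h1 : (a ^ m * b₁ * c ^ m : ℕ) ∣ (A' * B' * C').natAbs := by
      rw [← habs, ← hprod]
      exact Int.natAbs_dvd_natAbs.2 hdv
    exact ((Dvd.intro_left _ rfl).trans hdvd).trans h1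
  · obtain ⟨α, β, γ, x, y, z, e1, e2, e3, e4⟩ := hG.fin _ _ _ _ hG' (hP' _ hP)
    refine ⟨α, β, γ, x, y, z, ?_, ?_⟩
    · rw [hms, e1, e2, e3]
    · -- the size of `α β γ`
      have h1 : ((α * β * γ : ℕ) : ℝ) ≤ (27 : ℝ) ^ k * ((c ^ m : ℕ) : ℝ) ^ 4 := by
        have : ((α * β * γ : ℕ) : ℝ) ≤ ((27 ^ k * (c ^ m) ^ 4 : ℕ) : ℝ) := by exact_mod_cast e4
        refine this.trans (le_of_eq ?_)
        push_cast
        ring
      refine h1.trans ?_
      set H : ℝ := ((c ^ m : ℕ) : ℝ) with hH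
      have hH1 : 1 ≤ H := by
        rw [hH]
        exact_mod_cast Nat.one_le_pow _ _ hc
      have hlo : H ^ (d ^ k) ≤ L * c' := by
        have h2 := hR.lo
        rw [hht', ← hc'] at h2
        rw [hH]
        exact_mod_cast h2
      have hL0 : (0 : ℝ) < L := by exact_mod_cast hL
      have hc'0 : (0 : ℝ) ≤ c' := Nat.cast_nonneg _
      have h3 : H ^ (5 : ℕ) ≤ (L : ℝ) ^ δ * (c' : ℝ) ^ δ := by
        calc H ^ (5 : ℕ) = H ^ (5 : ℝ) := by norm_cast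
          _ ≤ H ^ (δ * (d : ℝ) ^ k) := Real.rpow_le_rpow_of_exponent_le hH1 hk
          _ = (H ^ (d ^ k : ℕ)) ^ δ := by
            rw [mul_comm, Real.rpow_mul (by linarith)]
            congr 1
            rw [← Nat.cast_pow, Real.rpow_natCast]
          _ ≤ (L * c') ^ δ := Real.rpow_le_rpow (by positivity) hlo hδ.le
          _ = _ := Real.mul_rpow hL0.le hc'0
      have h4 : (27 : ℝ) ^ k * (L : ℝ) ^ δ ≤ H := by
        have h5 : (27 : ℝ) ^ k * (L : ℝ) ^ δ ≤ ⌈(27 : ℝ) ^ k * (L : ℝ) ^ δ⌉₊ := Nat.le_ceil _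
        have h6 : ⌈(27 : ℝ) ^ k * (L : ℝ) ^ δ⌉₊ ≤ c ^ m :=
          ((le_max_right _ _).trans hcc).trans hccm
        refine h5.trans ?_
        rw [hH]
        exact_mod_cast h6
      have hLδ : 0 < (L : ℝ) ^ δ := Real.rpow_pos_of_pos hL0 _
      have h5 : ((27 : ℝ) ^ k * H ^ 4) * (L : ℝ) ^ δ ≤ (c' : ℝ) ^ δ * (L : ℝ) ^ δ := by
        calc ((27 : ℝ) ^ k * H ^ 4) * (L : ℝ) ^ δ = ((27 : ℝ) ^ k * (L : ℝ) ^ δ) * H ^ 4 := by ring
          _ ≤ H * H ^ 4 := mul_le_mul_of_nonneg_right h4 (by positivity)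
          _ = H ^ 5 := by ring
          _ ≤ (L : ℝ) ^ δ * (c' : ℝ) ^ δ := h3
          _ = _ := by ring
      exact le_of_mul_le_mul_right h5 hLδ
  · have h2 := hR.lo
    rw [hht', ← hc', ← pow_mul] at h2
    have h3 : c ^ (m * d ^ k) ≤ L * m * c' := by
      refine h2.trans ?_
      have : L * c' ≤ L * c' * m := Nat.le_mul_of_pos_right _ hm1
      calc L * c' ≤ L * c' * m := this
        _ = _ := by ring
    exact_mod_cast h3
  · have h2 := hR.rad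
    have h3 : rd A B C = R (a ^ m * (c ^ m - a ^ m) * c ^ m) := by
      unfold rd
      rw [hprod, habs, hb₁']
    have h4 := power_map m hm1 a b c ha hb habc
    have h5 : R (a' * b' * c') ≤ L * m * R (a * b * c) * c ^ (m * d ^ k - 1) := by
      rw [hprod']
      calc R (A' * B' * C').natAbs ≤ L * rd A B C * ht A B C ^ (d ^ k - 1) := h2
        _ ≤ L * (R (a * b * c) * (m * c ^ (m - 1))) * (c ^ m) ^ (d ^ k - 1) := by
            rw [h3, hht']
            exact Nat.mul_le_mul_right _ (Nat.mul_le_mul_left _ h4)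
        _ = L * m * R (a * b * c) * (c ^ (m - 1) * c ^ (m * (d ^ k - 1))) := by
            rw [← pow_mul]; ring
        _ = _ := by
            rw [← pow_add]
            congr 2
            have : m * d ^ k = m * (d ^ k - 1) + m := by
              conv_lhs => rw [show d ^ k = d ^ k - 1 + 1 by omega]
              ring
            omega
    exact_mod_cast h5

end Pool.Agent.H47SS
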