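import Mathlib
import Pool.Agent.H47SS.D

/-!
# The equivalence for all Euclidean signatures
-/

set_option autoImplicit false

namespace Pool.Agent.H47SS

open Pool.Agent.N746.Self (R ABC)

theorem mul3_le {a b c H : ℕ} (ha : a ≤ H) (hb : b ≤ H) (hc : c ≤ H) (hH : 0 < H) :
    a * b * c ≤ H ^ 4 := by
  calc a * b * c ≤ H * H * H := Nat.mul_le_mul (Nat.mul_le_mul ha hb) hc
    _ = H ^ 3 := by ring
    _ ≤ H ^ 4 := Nat.pow_le_pow_right hH (by norm_num)

theorem mul4_le {a b c e H : ℕ} (ha : a ≤ H) (hb : b ≤ H) (hc : c ≤ H) (he : e ≤ H) :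
    a * b * c * e ≤ H ^ 4 := by
  calc a * b * c * e ≤ H * H * H * H :=
        Nat.mul_le_mul (Nat.mul_le_mul (Nat.mul_le_mul ha hb) hc) he
    _ = H ^ 4 := by ring

theorem good333 : Good G333 P333 3 3 3 where
  ok := fun _ _ _ h => h.1
  start := fun A B C h h6 => by
    refine ⟨A, B, C, ⟨h, (by norm_num : (3 : ℤ) ∣ 6).trans h6⟩, rfl, rfl, A.natAbs, B.natAbs,
      C.natAbs, 1, 1, 1, by simp, by simp, by simp, ?_⟩
    exact mul3_le (le_ht₁ _ _ _) (le_ht₂ _ _ _) (le_ht₃ _ _ _) (ht_pos h.hA)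
  fin := fun σ A B C _ h => h

theorem OK.odd_of_even {A B C : ℤ} (h : OK A B C) (hC : ¬ Odd C) : Odd A ∧ Odd B := by
  have hs := h.sum
  rw [Int.not_odd_iff_even] at hC
  have h2 : ¬ (2 : ℤ) ∣ A := fun h1 => h.no_prime₁₃ Int.prime_two h1 hC.two_dvd
  have h3 : ¬ (2 : ℤ) ∣ B := fun h1 => h.no_prime₂₃ Int.prime_two h1 hC.two_dvd
  exact ⟨by rw [← Int.not_even_iff_odd]; exact fun h => h2 h.two_dvd,
    by rw [← Int.not_even_iff_odd]; exact fun h => h3 h.two_dvd⟩

theorem P442_start {A B C : ℤ} : P442 (ht A B C ^ 4) A B C := by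
  refine ⟨A.natAbs, B.natAbs, C.natAbs, 1, 1, 1, by simp, by simp, by simp, ?_⟩
  calc A.natAbs * B.natAbs * C.natAbs ^ 2 = A.natAbs * B.natAbs * C.natAbs * C.natAbs := by ring
    _ ≤ _ := mul4_le (le_ht₁ _ _ _) (le_ht₂ _ _ _) (le_ht₃ _ _ _) (le_ht₃ _ _ _)

theorem good442 : Good G442 P442 4 4 2 where
  ok := fun _ _ _ h => h.1
  start := fun A B C h h6 => by
    by_cases hC : Odd C
    · exact ⟨A, B, C, ⟨h, hC⟩, rfl, rfl, P442_start⟩
    · obtain ⟨h1, h2⟩ := h.odd_of_even hC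
      have e : ht A C B = ht A B C := (ht_swap₂₃ A B C).symm
      refine ⟨A, C, B, ⟨h.swap₂₃, h2⟩, e, by ring, ?_⟩
      rw [← e]
      exact P442_start
  fin := fun σ A B C hG h => by
    obtain ⟨α, β, γ, x, y, z, e1, e2, e3, e4⟩ := h
    refine ⟨α, β, γ, x, y, z, e1, e2, e3, le_trans ?_ e4⟩
    have h1 : 1 ≤ γ := by
      rcases Nat.eq_zero_or_pos γ with h0 | h0
      · rw [h0, zero_mul] at e3
        exact absurd (Int.natAbs_eq_zero.1 e3) hG.1.hC
      · exact h0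
    exact Nat.mul_le_mul_left _ (Nat.le_self_pow (by norm_num) γ)

theorem P236_start {A B C : ℤ} : P236 (ht A B C ^ 4) A B C := by
  refine ⟨A.natAbs, B.natAbs, C.natAbs, 1, 1, 1, by simp, by simp, by simp, ?_⟩
  calc A.natAbs * B.natAbs ^ 2 * C.natAbs = A.natAbs * B.natAbs * B.natAbs * C.natAbs := by ring
    _ ≤ _ := mul4_le (le_ht₁ _ _ _) (le_ht₂ _ _ _) (le_ht₂ _ _ _) (le_ht₃ _ _ _)

theorem good236 : Good G236 P236 2 3 6 where
  ok := fun _ _ _ h => h.1
  start := fun A B C h h6 => by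
    have h3 : ∀ {x y z : ℤ}, OK x y z → (3 : ℤ) ∣ x → ¬ (3 : ℤ) ∣ y := fun h h1 h2 =>
      h.no_prime Int.prime_three h1 h2
    by_cases hA : (3 : ℤ) ∣ A
    · have hB := h3 h hA
      by_cases hAo : Odd A
      · -- (B, A, C)
        have e : ht B A C = ht A B C := (ht_swap₁₂ A B C).symm
        refine ⟨B, A, C, ⟨h.swap₁₂, hAo, hB⟩, e, by ring, ?_⟩
        rw [← e]
        exact P236_start
      · -- (B, C, A)
        have e : ht B C A = ht A B C := by unfold ht; omega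
        have hC : Odd C := ((h.swap₁₂.swap₂₃ : OK B C A).odd_of_even hAo).2
        refine ⟨B, C, A, ⟨h.swap₁₂.swap₂₃, hC, hB⟩, e, by ring, ?_⟩
        rw [← e]
        exact P236_start
    · by_cases hB : Odd B
      · exact ⟨A, B, C, ⟨h, hB, hA⟩, rfl, rfl, P236_start⟩
      · -- (A, C, B)
        have e : ht A C B = ht A B C := (ht_swap₂₃ A B C).symm
        have hC : Odd C := (h.swap₂₃.odd_of_even hB).2
        refine ⟨A, C, B, ⟨h.swap₂₃, hC, hA⟩, e, by ring, ?_⟩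
        rw [← e]
        exact P236_start
  fin := fun σ A B C hG h => by
    obtain ⟨α, β, γ, x, y, z, e1, e2, e3, e4⟩ := h
    refine ⟨α, β, γ, x, y, z, e1, e2, e3, le_trans ?_ e4⟩
    exact Nat.mul_le_mul_right _ (Nat.mul_le_mul_left _ (Nat.le_self_pow (by norm_num) β))

theorem ABC.congr {T T' : ℕ → ℕ → ℕ → Prop} (h : ∀ a b c, T a b c ↔ T' a b c) : ABC T ↔ ABC T' := by
  have : T = T' := by
    funext a b c
    exact propext (h a b c)
  rw [this]

theorem swap₁₂ (p q r N : ℕ) (δ : ℝ) : ABC (Almost p q r N δ) ↔ ABC (Almost q p r N δ) :=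
  ABC.congr fun _ _ _ => ⟨fun h => h.swap₁₂, fun h => h.swap₁₂⟩

theorem swap₂₃ (p q r N : ℕ) (δ : ℝ) : ABC (Almost p q r N δ) ↔ ABC (Almost p r q N δ) :=
  ABC.congr fun _ _ _ => ⟨fun h => h.swap₂₃, fun h => h.swap₂₃⟩

/-- the sorted solutions -/
theorem sorted {p q r : ℕ} (hp : 0 < p) (hpq : p ≤ q) (hqr : q ≤ r)
    (h : q * r + p * r + p * q = p * q * r) :
    (p = 3 ∧ q = 3 ∧ r = 3) ∨ (p = 2 ∧ q = 4 ∧ r = 4) ∨ (p = 2 ∧ q = 3 ∧ r = 6) := by
  have hq : 0 < q := by omega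
  have hr : 0 < r := by omega
  have hp3 : p ≤ 3 := by
    by_contra hlt
    have h1 : 4 ≤ p := by omega
    have h2 : p * q ≤ q * r := by rw [mul_comm]; exact Nat.mul_le_mul_left _ (by omega)
    have h3 : p * r ≤ q * r := Nat.mul_le_mul_right _ hpq
    have h4 : 4 * (q * r) ≤ p * q * r := by
      rw [mul_assoc]
      exact Nat.mul_le_mul_right _ h1
    have h5 : 0 < q * r := Nat.mul_pos hq hr
    omega
  interval_cases p
  · have : 0 < q * r := Nat.mul_pos hq hr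
    simp only [one_mul] at h
    omega
  · -- `q r + 2 r + 2 q = 2 q r`, so `(q - 2) (r - 2) = 4`
    have hq4 : q ≤ 4 := by
      by_contra hlt
      have h1 : 5 * r ≤ q * r := Nat.mul_le_mul_right _ (by omega)
      have h2 : 2 * q * r = 2 * (q * r) := by ring
      omega
    interval_cases q <;> omega
  · have hq3 : q ≤ 3 := by
      by_contra hlt
      have h1 : 4 * r ≤ q * r := Nat.mul_le_mul_right _ (by omega)
      have h2 : 3 * q * r = 3 * (q * r) := by ring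
      omega
    interval_cases q
    omega

theorem main' (p q r N : ℕ) (hp : 0 < p) (hq : 0 < q) (hr : 0 < r)
    (h : q * r + p * r + p * q = p * q * r) (hN : 1 ≤ N) (δ : ℝ) (hδ : 0 < δ) :
    ABC (Almost p q r N δ) ↔ ABC fun _ _ _ => True := by
  have key : ∀ p q r : ℕ, 0 < p → p ≤ q → q ≤ r → q * r + p * r + p * q = p * q * r →
      (ABC (Almost p q r N δ) ↔ ABC fun _ _ _ => True) := by
    intro p q r hp hpq hqr h
    rcases sorted hp hpq hqr h with ⟨rfl, rfl, rfl⟩ | ⟨rfl, rfl, rfl⟩ | ⟨rfl, rfl, rfl⟩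
    · exact main sys333 good333 N hN δ hδ
    · rw [swap₁₂, swap₂₃]
      exact main sys442 good442 N hN δ hδ
    · exact main sys236 good236 N hN δ hδ
  rcases le_total p q with h1 | h1 <;> rcases le_total q r with h2 | h2 <;>
    rcases le_total p r with h3 | h3
  · exact key p q r hp h1 h2 h
  · exact key p q r hp h1 h2 h
  · rw [swap₂₃]
    exact key p r q hp h3 h2 (by linarith)
  · rw [swap₂₃, swap₁₂]
    exact key r p q hr h3 h1 (by linarith)
  · rw [swap₁₂]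
    exact key q p r hq h1 h3 (by linarith)
  · rw [swap₁₂, swap₂₃]
    exact key q r p hq h2 h3 (by linarith)
  · rw [swap₂₃, swap₁₂, swap₂₃]
    exact key r q p hr h2 h1 (by linarith)
  · rw [swap₂₃, swap₁₂, swap₂₃]
    exact key r q p hr h2 h1 (by linarith)

theorem main'' (p q r N : ℕ) (hp : 0 < p) (hq : 0 < q) (hr : 0 < r)
    (h : (1 : ℚ) / p + 1 / q + 1 / r = 1) (hN : 1 ≤ N) (δ : ℝ) (hδ : 0 < δ) :
    ABC (Almost p q r N δ) ↔ ABC fun _ _ _ => True := by
  refine main' p q r N hp hq hr ?_ hN δ hδ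
  have hp' : (p : ℚ) ≠ 0 := by exact_mod_cast hp.ne'
  have hq' : (q : ℚ) ≠ 0 := by exact_mod_cast hq.ne'
  have hr' : (r : ℚ) ≠ 0 := by exact_mod_cast hr.ne'
  field_simp at h
  have h1 : ((q * r + p * r + p * q : ℕ) : ℚ) = ((p * q * r : ℕ) : ℚ) := by
    push_cast
    linarith
  exact_mod_cast h1

end Pool.Agent.H47SS
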